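import Mathlib
import Pool.Agent.W2helper83.BT.Full8

/-!
# Uniform boundedness for bicritical maps `(α x ^ d + β) / (γ x ^ d + δ)`

`K` is a number field, `S` a finite set of primes of `K`, `d ≥ 4`, `l ≥ 2`, `d + l ≥ 8`. The maps
`f (x) = (α x ^ d + β) / (γ x ^ d + δ)` of the projective line over `K` (every rational map of degree `d` with
two critical points, both in `ℙ¹(K)`, is conjugate over `K` to one of them), under a condition at the
primes `v` outside `S`: some conjugate `f (u x) / u`, `u ∈ K*`, has, after multiplying its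
coefficients by an element of `K*`, the following form (`NormalAt`; the conjugate and the factor may
depend on `v`). The coefficients are integral at `v`, the vectors `F (1, 0)`, `F (0, 1)`, `F (F (1, 0))` of
the homogeneous map `F (X, Y) = (α X ^ d + β Y ^ d, γ X ^ d + δ Y ^ d)` are primitive at `v`, and the order of
`α δ - β γ` at `v` is divisible by `l`. (If `α δ - β γ` is a unit at `v` then the map has good reduction at `v`;
otherwise its reduction is a constant map with holes at the zeros of a form `X ^ d + u Y ^ d`.)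

1. There is a bound, depending only on `K, S, d, l`, for the number of preperiodic points in `ℙ¹(K)`.
2. All these maps with more than six periodic points in `ℙ¹(K)` are conjugate, by `x ↦ u x`, to one
   of finitely many maps.
3. Over `ℚ` (with `S` empty): the bound for the preperiodic points of all the maps `(a x ^ d + b) / (c x ^ d + e)` with integers `a, b,
   c, e`, `|a e - b c| = |t| ^ l` not zero, and coprime pairs `a, c`, and `b, e`, and
   `a ^ (d + 1) + b c ^ d, c a ^ d + e c ^ d`. (For odd `d` this part is contained in the starting file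
   `DegreeIndependent`, which needs no condition on the coefficients then.)
-/

set_option autoImplicit false

namespace Pool.Agent.Results.MP_c076ed_nt.BicriticalMaps

open IsDedekindDomain NumberField

/-- The map `x ↦ (α x ^ d + β) / (γ x ^ d + δ)` of the projective line `K ∪ {∞}`; `none` is the point at
infinity. -/
noncomputable def bicritical {K : Type} [Field K] (d : ℕ) (α β γ δ : K) : Option K → Option K :=
  open Classical in fun z =>
    match z with
    | none => if γ = 0 then none else some (α / γ)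
    | some x => if γ * x ^ d + δ = 0 then none else some ((α * x ^ d + β) / (γ * x ^ d + δ))

/-- The normal form at the prime `v`: the coefficients are integral, `(α, γ)`, `(β, δ)` and
`(α ^ (d + 1) + β γ ^ d, γ α ^ d + δ γ ^ d)` are primitive, the order of `α δ - β γ` is divisible by `l`. -/
def NormalAt {K : Type} [Field K] [NumberField K] (v : HeightOneSpectrum (𝓞 K)) (d l : ℕ)
    (α β γ δ : K) : Prop :=
  (v.valuation K α ≤ 1 ∧ v.valuation K β ≤ 1 ∧ v.valuation K γ ≤ 1 ∧ v.valuation K δ ≤ 1) ∧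
    (v.valuation K α = 1 ∨ v.valuation K γ = 1) ∧ (v.valuation K β = 1 ∨ v.valuation K δ = 1) ∧
    (v.valuation K (α ^ (d + 1) + β * γ ^ d) = 1 ∨
      v.valuation K (γ * α ^ d + δ * γ ^ d) = 1) ∧
    ∃ h : K, v.valuation K (α * δ - β * γ) = v.valuation K h ^ l

/-- Some conjugate `f (u x) / u` of `f (x) = (α x ^ d + β) / (γ x ^ d + δ)` has the normal form at `v`, after
multiplying its coefficients by some `s`. -/
def ConjNormalAt {K : Type} [Field K] [NumberField K] (v : HeightOneSpectrum (𝓞 K)) (d l : ℕ)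
    (α β γ δ : K) : Prop :=
  ∃ u s : K, u ≠ 0 ∧ s ≠ 0 ∧
    NormalAt v d l (s * α * u ^ d) (s * β) (s * γ * u ^ (d + 1)) (s * δ * u)

/-- A point with a finite orbit. -/
def IsPreperiodic {X : Type} (f : X → X) (x : X) : Prop := ∃ m n : ℕ, m < n ∧ f^[m] x = f^[n] x

theorem result :
    (∀ (K : Type) [Field K] [NumberField K] (S : Set (HeightOneSpectrum (𝓞 K))) (d l : ℕ),
      S.Finite → 4 ≤ d → 2 ≤ l → 8 ≤ d + l →
      (∃ B : ℕ, ∀ α β γ δ : K, α * δ - β * γ ≠ 0 → (∀ v ∉ S, ConjNormalAt v d l α β γ δ) →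
        ∀ T : Finset (Option K), (∀ z ∈ T, IsPreperiodic (bicritical d α β γ δ) z) →
          T.card ≤ B) ∧
      ∃ A : Set (Option K → Option K), A.Finite ∧
        ∀ α β γ δ : K, α * δ - β * γ ≠ 0 → (∀ v ∉ S, ConjNormalAt v d l α β γ δ) →
        ∀ T : Finset (Option K), (∀ z ∈ T, z ∈ Function.periodicPts (bicritical d α β γ δ)) →
          6 < T.card → ∃ u : K, u ≠ 0 ∧ ∃ g ∈ A, ∀ z, Option.map (fun y => u * y) (g z) =
            bicritical d α β γ δ (Option.map (fun y => u * y) z)) ∧
    ∀ d l : ℕ, 4 ≤ d → 2 ≤ l → 8 ≤ d + l → ∃ B : ℕ, ∀ a b c e t : ℤ, t ≠ 0 →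
      |a * e - b * c| = |t| ^ l → IsCoprime a c → IsCoprime b e →
      IsCoprime (a ^ (d + 1) + b * c ^ d) (c * a ^ d + e * c ^ d) →
      ∀ T : Finset (Option ℚ),
        (∀ z ∈ T, IsPreperiodic (bicritical d (a : ℚ) b c e) z) → T.card ≤ B := by
  have key : ∀ (K : Type) [Field K] [NumberField K] (S : Set (HeightOneSpectrum (𝓞 K))) (d l : ℕ)
      (α β γ δ : K), (∀ v ∉ S, ConjNormalAt v d l α β γ δ) →
      Pool.Agent.W2helper83.BT.CndL S d l α β γ δ := by
    intro K _ _ S d l α β γ δ hN v hv
    obtain ⟨u, s, hu, hs, h1, h2, h3, h4, h5⟩ := hN v hv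
    exact ⟨u, s, hu, hs, ⟨h1, h2, h3, h4⟩, h5⟩
  refine ⟨fun K _ _ S d l hS hd hl hdl => ⟨?_, ?_⟩, fun d l hd hl hdl => ?_⟩
  · obtain ⟨B, hB⟩ := Pool.Agent.W2helper83.BT.full_all hd hl hdl K S hS
    exact ⟨B, fun α β γ δ hD hN T hT => hB α β γ δ hD (key K S d l α β γ δ hN) T hT⟩
  · obtain ⟨A, hA, hA'⟩ := Pool.Agent.W2helper83.BT.bicl_exc hd hl hdl K S hS
    exact ⟨A, hA, fun α β γ δ hD hN T hT hc => hA' α β γ δ hD (key K S d l α β γ δ hN) T hT hc⟩
  · obtain ⟨B, hB⟩ := Pool.Agent.W2helper83.BT.full_all hd hl hdl ℚ ∅ Set.finite_empty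
    refine ⟨B, fun a b c e t ht hD h1 h2 h3 T hT => hB a b c e ?_
      (Pool.Agent.W2helper83.BT.cndL_of_M
        (Pool.Agent.W2helper83.BT.cndM_rat d l h1 h2 h3 hD)) T hT⟩
    intro h0
    have h4 : a * e - b * c = 0 := by exact_mod_cast h0
    rw [h4, abs_zero] at hD
    exact (pow_ne_zero l (abs_ne_zero.2 ht)) hD.symm

end Pool.Agent.Results.MP_c076ed_nt.BicriticalMaps
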