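import Pool.Agent.W2helper96.F5.SixJ

/-!
# The rational preperiodic points of `x ^ 6 + c`

For every rational number `c ≠ 0, -1` the polynomial `x ^ 6 + c` has at most one rational periodic
point `P`, which is a fixed point, and its rational preperiodic points are among `P` and `-P`. For
`c = 0` and `c = -1` they are `-1, 0, 1`.

The same holds for `x ^ d + c` if `d ≡ 6 mod 30`, provided no prime `p ≡ 1 mod 3` divides both `d` and
the denominator of `c` (no condition for `d = 6, 36, 66, 96, 216, ...`), and, more generally, for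
the polynomials `f = a (x - u) ^ d + w` over the rationals, `a ≠ 0`, `6 ∣ d`, `5 ∤ d`, such that
every prime `p ≡ 1 mod 3` dividing the denominator of `t = a (w - u) ^ (d - 1)` does not divide `d` and
divides the denominator of `t` exactly to a power with exponent divisible by five: if `t ≠ 0, -1` then
`f` has at most one rational periodic point. (If `w ≠ u` then `f` is conjugate to `t x ^ d + 1`.) There
are at most two rational preperiodic points if moreover `t ≠ -2`, and always at most three.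

Proof. In a suitable coordinate the preperiodic points are integers and `f(x) = (A x ^ d + B) / V`,
`gcd (A B, V) = 1`, `d v_p(V) = v_p(den t)`. Let `u ≠ w` be periodic points. They are coprime, and the
valuations of `u ^ 2 + u w + w ^ 2` and `u ^ 2 - u w + w ^ 2` at the primes `p ≠ 3` are
divisible by five: a prime dividing one of these numbers is three or congruent to one modulo three; if it
does not divide `V`, it does not divide `(u ^ d - w ^ d) / (u - w)`, by the periodicity; if it divides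
`V`, the valuations of all differences of periodic points are divisible by five, by an induction along
the orbit. So `u ^ 4 + u ^ 2 w ^ 2 + w ^ 4 = k z ^ 5` with `k = 1` or `k = 3`, and the main point is
(module `TwC`, theorem `arith`): all solutions in coprime integers have `u w = 0` or `u = ± w`.

* If `k = 3` and `u`, `w` are odd, one of the two factors is `β ^ 5`, the other `3 γ ^ 5`, and
  `β ^ 5 - γ ^ 5 = 6 ((u ± w) / 3) ^ 2`, which has only trivial solutions by a descent (`K6`).
* In the other cases factor in the Eisenstein integers: for suitable coprime `a`, `b`,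
  `(k w) ^ 2 = a Φ(a, b)` and `(k u) ^ 2 = b Φ(b, a)`, `Φ(a, b) = -a ^ 4 - 5 a ^ 3 b + 10 a b ^ 3 + 5 b ^ 4`.
  If `u`, `w` are odd and `k = 1` then `a` and `b` are squares (modulo eight), and one gets a
  contradiction modulo three. If `w` is even then, by congruences, `a = ± 5 s ^ 2`, and a point with even
  `S` on the curve of genus one `z ^ 2 = m ^ 4 - 150 m ^ 2 S ^ 2 + 1125 S ^ 4` results; by an infinite
  descent (`TwA`) `S = 0`.

So `0` is one of any two periodic points, `V = 1`, and `t = 0` or `t = -1` follows. A preimage of `-x`,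
`x` a fixed point, leads to coprime `σ`, `θ` with `σ ^ d - θ ^ d = ± V` or `± 2 V`, and the theorem on
the equation applies again: `σ θ = 0`.
-/

set_option autoImplicit false

namespace Pool.Agent.Results.MP_c076ed_nt.DegreeSix

open Pool.Agent.W2helper83 Pool.Agent.W2helper96

/-- The rational periodic points of `f`. -/
def periodic (f : ℚ → ℚ) : Set ℚ := {x | ∃ n : ℕ, 0 < n ∧ f^[n] x = x}

/-- The rational preperiodic points of `f`. -/
def preperiodic (f : ℚ → ℚ) : Set ℚ := {x | ∃ m n : ℕ, m < n ∧ f^[m] x = f^[n] x}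

/-- a single periodic point is a fixed point -/
theorem fixed_of_one {f : ℚ → ℚ} (h : (periodic f).encard ≤ 1) {x : ℚ} (hx : x ∈ periodic f) :
    f x = x := by
  obtain ⟨n, hn, hnx⟩ := hx
  have h1 : f x ∈ periodic f :=
    ⟨n, hn, by rw [← Function.iterate_succ_apply, Function.iterate_succ_apply', hnx]⟩
  exact Set.encard_le_one_iff.1 h _ _ h1 ⟨n, hn, hnx⟩

/-- the general theorem -/
theorem general (d : ℕ) (a u w t : ℚ) (h6 : 6 ∣ d) (hd0 : d ≠ 0) (h5 : ¬ 5 ∣ d) (ha : a ≠ 0)
    (ht : t = a * (w - u) ^ (d - 1))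
    (hE : ∀ p : ℕ, p.Prime → p % 3 = 1 → p ∣ t.den → ¬ p ∣ d ∧ 5 ∣ padicValNat p t.den) :
    (t ≠ 0 → t ≠ -1 → (periodic fun x => a * (x - u) ^ d + w).encard ≤ 1 ∧
      (∀ x ∈ periodic fun x => a * (x - u) ^ d + w, a * (x - u) ^ d + w = x) ∧
      (t ≠ -2 → (preperiodic fun x => a * (x - u) ^ d + w).encard ≤ 2)) ∧
    (∀ x ∈ preperiodic fun x => a * (x - u) ^ d + w,
      x ∈ periodic (fun x => a * (x - u) ^ d + w) ∨
      2 * u - x ∈ periodic (fun x => a * (x - u) ^ d + w) ∨ (x = u ∧ t = -2)) ∧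
    (periodic fun x => a * (x - u) ^ d + w).encard ≤ 2 ∧
    (preperiodic fun x => a * (x - u) ^ d + w).encard ≤ 3 := by
  have hH : F5.AllG d a (w - u) := F5.allG_of h6 hd0 h5 (by rw [ht] at hE; exact hE)
  have hd2 : 2 ≤ d := by have := Nat.le_of_dvd (Nat.pos_of_ne_zero hd0) h6; omega
  have hev : Even d := even_iff_two_dvd.2 (Dvd.dvd.trans ⟨3, rfl⟩ h6)
  refine ⟨?_, ?_, ?_, ?_⟩
  · intro h0 h1
    rw [ht] at h0 h1
    have g1 : (periodic fun x => a * (x - u) ^ d + w).encard ≤ 1 := by
      have := UC.transfer (P := periodic fun x => a * (x - u) ^ d + w)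
        (fun x => UC.mem_per (d := d) (a := a) (u := u) (w := w)) (hH.one hd2 ha h0 h1)
      exact_mod_cast this
    refine ⟨g1, fun x hx => fixed_of_one g1 hx, fun h2 => ?_⟩
    rw [ht] at h2
    have := UC.transfer (P := preperiodic fun x => a * (x - u) ^ d + w)
      (fun x => UC.mem_pre (d := d) (a := a) (u := u) (w := w)) (hH.preTwo hd2 ha h0 h1 h2)
    exact_mod_cast this
  · intro x hx
    rcases hH.shape hev hd2 ha _ ((UC.mem_pre (d := d) (a := a) (u := u) (w := w)).1 hx) with
      h | h | ⟨h, h'⟩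
    · exact Or.inl ((UC.mem_per (d := d) (a := a) (u := u) (w := w)).2 h)
    · right; left
      apply (UC.mem_per (d := d) (a := a) (u := u) (w := w)).2
      rw [show 2 * u - x - u = -(x - u) by ring]
      exact h
    · right; right
      exact ⟨by linarith, by rw [ht]; exact h'⟩
  · have := UC.transfer (P := periodic fun x => a * (x - u) ^ d + w)
      (fun x => UC.mem_per (d := d) (a := a) (u := u) (w := w)) (hH.two hd2 ha)
    exact_mod_cast this
  · have := UC.transfer (P := preperiodic fun x => a * (x - u) ^ d + w)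
      (fun x => UC.mem_pre (d := d) (a := a) (u := u) (w := w)) (hH.three hd2 ha)
    exact_mod_cast this

/-- the case `x ^ d + c`, `d ≡ 6 mod 30` -/
theorem monic (d : ℕ) (c : ℚ) (h30 : d % 30 = 6)
    (hE : ∀ p : ℕ, p.Prime → p % 3 = 1 → p ∣ d → ¬ p ∣ c.den) :
    (c ≠ 0 → c ≠ -1 → (periodic fun x => x ^ d + c).encard ≤ 1 ∧
      (preperiodic fun x => x ^ d + c).encard ≤ 2 ∧
      ∀ x ∈ preperiodic fun x => x ^ d + c, x ^ d + c = x ∨ x ^ d + c = -x) ∧
    (c = 0 ∨ c = -1 → preperiodic (fun x => x ^ d + c) = {-1, 0, 1}) := by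
  have hd0 : d ≠ 0 := by omega
  have hev : Even d := even_iff_two_dvd.2 (by omega)
  have hodd : Odd (d - 1) := by
    obtain ⟨k, hk⟩ := hev
    exact ⟨k - 1, by omega⟩
  obtain ⟨g1, g2, -, g4⟩ := general d 1 0 c (1 * (c - 0) ^ (d - 1)) (by omega) hd0 (by omega)
    one_ne_zero rfl
    (by
      intro p hp hp1 hpd
      have h1 : (1 * (c - 0) ^ (d - 1) : ℚ).den = c.den ^ (d - 1) := by
        rw [sub_zero, one_mul, Rat.den_pow]
      rw [h1] at hpd ⊢
      have := Fact.mk hp
      refine ⟨fun h2 => hE p hp hp1 h2 (hp.dvd_of_dvd_pow hpd), ?_⟩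
      rw [padicValNat.pow]
      exact Dvd.dvd.mul_right (by omega) _)
  have e : (fun x : ℚ => 1 * (x - 0) ^ d + c) = fun x => x ^ d + c := by
    funext x
    rw [sub_zero, one_mul]
  have e' : ∀ x : ℚ, 1 * (x - 0) ^ d + c = x ^ d + c := fun x => by rw [sub_zero, one_mul]
  rw [e] at g1 g2 g4
  rw [sub_zero, one_mul] at g1 g2
  constructor
  · intro h0 h1
    have t0 : c ^ (d - 1) ≠ 0 := pow_ne_zero _ h0
    have t1 : c ^ (d - 1) ≠ -1 := by
      intro h
      apply h1
      apply hodd.strictMono_pow.injective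
      change c ^ (d - 1) = (-1) ^ (d - 1)
      rw [h, hodd.neg_one_pow]
    have t2 : c ^ (d - 1) ≠ -2 := by
      intro h
      have := Fact.mk Nat.prime_two
      have h2 : padicValRat 2 (c ^ (d - 1)) = 1 := by
        rw [h, padicValRat.neg]
        exact_mod_cast padicValRat.self (p := 2) (by norm_num)
      rw [padicValRat.pow] at h2
      have h3 : ((d - 1 : ℕ) : ℤ) ∣ 1 := ⟨_, h2.symm⟩
      have h4 : d - 1 ∣ 1 := by exact_mod_cast h3
      have := Nat.dvd_one.1 h4
      omega
    obtain ⟨k1, -, k3⟩ := g1 t0 t1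
    refine ⟨k1, k3 t2, ?_⟩
    intro x hx
    rcases g2 x hx with h | h | ⟨-, h⟩
    · exact Or.inl (fixed_of_one k1 h)
    · right
      have := fixed_of_one k1 h
      rw [show (2 : ℚ) * 0 - x = -x by ring] at this
      simp only [hev.neg_pow] at this
      exact this
    · exact absurd h t2
  · intro hc
    have hsub : ({-1, 0, 1} : Set ℚ) ⊆ preperiodic (fun x => x ^ d + c) := by
      intro x hx
      have m1 : (-1 : ℚ) ^ d = 1 := hev.neg_one_pow
      rcases hc with rfl | rfl
      · refine ⟨1, 2, by norm_num, ?_⟩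
        rcases hx with rfl | rfl | rfl <;>
          simp [m1, zero_pow hd0]
      · refine ⟨1, 3, by norm_num, ?_⟩
        rcases hx with rfl | rfl | rfl <;>
          simp [m1, zero_pow hd0]
    have h3 : ({-1, 0, 1} : Set ℚ).encard = 3 := by
      rw [Set.encard_eq_three]
      exact ⟨-1, 0, 1, by norm_num, by norm_num, by norm_num, rfl⟩
    exact ((Set.toFinite _).eq_of_subset_of_encard_le hsub (by rw [h3]; exact g4)).symm

/-- **Main theorem.** -/
theorem result :
    -- the case `x ^ 6 + c`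
    (∀ c : ℚ,
      (c ≠ 0 → c ≠ -1 → (periodic fun x => x ^ 6 + c).encard ≤ 1 ∧
        (preperiodic fun x => x ^ 6 + c).encard ≤ 2 ∧
        ∀ x ∈ preperiodic fun x => x ^ 6 + c, x ^ 6 + c = x ∨ x ^ 6 + c = -x) ∧
      (c = 0 ∨ c = -1 → preperiodic (fun x => x ^ 6 + c) = {-1, 0, 1})) ∧
    -- the case `x ^ d + c`, `d ≡ 6 mod 30`
    (∀ (d : ℕ) (c : ℚ), d % 30 = 6 → (∀ p : ℕ, p.Prime → p % 3 = 1 → p ∣ d → ¬ p ∣ c.den) →
      (c ≠ 0 → c ≠ -1 → (periodic fun x => x ^ d + c).encard ≤ 1 ∧
        (preperiodic fun x => x ^ d + c).encard ≤ 2 ∧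
        ∀ x ∈ preperiodic fun x => x ^ d + c, x ^ d + c = x ∨ x ^ d + c = -x) ∧
      (c = 0 ∨ c = -1 → preperiodic (fun x => x ^ d + c) = {-1, 0, 1})) ∧
    -- the general case
    (∀ (d : ℕ) (a u w t : ℚ), 6 ∣ d → d ≠ 0 → ¬ 5 ∣ d → a ≠ 0 →
      t = a * (w - u) ^ (d - 1) →
      (∀ p : ℕ, p.Prime → p % 3 = 1 → p ∣ t.den → ¬ p ∣ d ∧ 5 ∣ padicValNat p t.den) →
      (t ≠ 0 → t ≠ -1 → (periodic fun x => a * (x - u) ^ d + w).encard ≤ 1 ∧
        (∀ x ∈ periodic fun x => a * (x - u) ^ d + w, a * (x - u) ^ d + w = x) ∧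
        (t ≠ -2 → (preperiodic fun x => a * (x - u) ^ d + w).encard ≤ 2)) ∧
      (∀ x ∈ preperiodic fun x => a * (x - u) ^ d + w,
        x ∈ periodic (fun x => a * (x - u) ^ d + w) ∨
        2 * u - x ∈ periodic (fun x => a * (x - u) ^ d + w) ∨ (x = u ∧ t = -2)) ∧
      (periodic fun x => a * (x - u) ^ d + w).encard ≤ 2 ∧
      (preperiodic fun x => a * (x - u) ^ d + w).encard ≤ 3) := by
  refine ⟨fun c => monic 6 c (by norm_num) ?_, monic, general⟩
  intro p hp hp1 h6
  exfalso
  have h7 : p ∣ 2 * 3 := h6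
  rcases hp.dvd_mul.1 h7 with h8 | h8
  · rw [(Nat.prime_dvd_prime_iff_eq hp Nat.prime_two).1 h8] at hp1
    norm_num at hp1
  · rw [(Nat.prime_dvd_prime_iff_eq hp Nat.prime_three).1 h8] at hp1
    norm_num at hp1

end Pool.Agent.Results.MP_c076ed_nt.DegreeSix
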