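import Mathlib
import Pool.Agent.W2helper83.BT.Final
import Pool.Agent.W2helper83.BT.Final5

/-!
# Uniform boundedness for the rational maps `b (x - r) ^ e + s`

Over `ℚ`: all the maps `x ^ e + c`, for every exponent `e` with `|e| ≥ 3`, and all the polynomials
`(m x ^ d + n) / t ^ l` with integers `m, n, t` such that `m n` is coprime to `t`, for `d ≥ 4`, `l ≥ 2`,
`d + l ≥ 8`.

Over every number field `K`: all the maps `b (x - r) ^ e + s`, `|e| ≥ 4`, whose conjugacy invariant
`j = b (s - r) ^ (e - 1)` satisfies a condition at the bad primes only: if `- ord_v (j) / e` is a positive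
integer then it is divisible by `l` (for all the primes `v` outside a given finite set; `l ≥ 2` and
`|e| + l ≥ 8`). At the other primes there is no condition. (If `ord_v (j)` and `e` have different signs and
`e` does not divide `ord_v (j)` then there is no periodic point besides infinity anyway.) The condition
is satisfied by all the maps `x ^ e + c` with `e ≥ 5` or `e ≤ -4` (`l = |e - 1|`).
-/

set_option autoImplicit false

namespace Pool.Agent.Results.MP_c076ed_nt.EveryExponent

open IsDedekindDomain NumberField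

/-- The rational map `x ↦ b (x - r) ^ e + s` of the projective line `K ∪ {∞}` (`none` is the point
at infinity). For `e > 0` it fixes infinity; for `e < 0` it sends `r` to infinity and infinity
to `s`. Its degree is `|e|`. -/
noncomputable def ratMap {K : Type} [Field K] (e : ℤ) (b r s : K) : Option K → Option K
  | none => open Classical in if 0 < e then none else some s
  | some x => open Classical in if e < 0 ∧ x = r then none else some (b * (x - r) ^ e + s)

/-- A point with a finite orbit. -/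
def IsPreperiodic {X : Type} (f : X → X) (x : X) : Prop := ∃ m n : ℕ, m < n ∧ f^[m] x = f^[n] x

/-- For all the primes `v` outside `S`: if the order of `j` at `v` is `e` times the order of some `g`
with a pole at `v` then the order of `g` is divisible by `l`. That is: if `- ord_v (j) / e` is a
positive integer then it is divisible by `l`. -/
def BadPrimes {K : Type} [Field K] [NumberField K] (S : Set (HeightOneSpectrum (𝓞 K))) (e : ℤ)
    (l : ℕ) (j : K) : Prop :=
  ∀ v ∉ S, ∀ g : K, 1 < v.valuation K g → v.valuation K j = v.valuation K g ^ e →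
    ∃ h : K, v.valuation K g = v.valuation K h ^ l

/-- The preperiodic points in `K` of `b (x - r) ^ e + s` are completely described: either there are
none, or there is a fixed point `y ≠ r` in `K` and they are exactly the `x` with
`(x - r) ^ e = (y - r) ^ e`; moreover infinity is not preperiodic if `e < 0`. -/
def IsDescribed {K : Type} [Field K] (e : ℤ) (b r s : K) : Prop :=
  ((∀ x : K, ¬ IsPreperiodic (ratMap e b r s) (some x)) ∨
    ∃ y : K, y ≠ r ∧ ratMap e b r s (some y) = some y ∧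
      ∀ x : K, IsPreperiodic (ratMap e b r s) (some x) ↔ (x - r) ^ e = (y - r) ^ e) ∧
  (e < 0 → ¬ IsPreperiodic (ratMap e b r s) none)

theorem ratMap_eq {K : Type} [Field K] (e : ℤ) (b r s : K) :
    ratMap e b r s = Pool.Agent.W2helper83.BT.Phi e b r s := by
  funext P
  rcases P with _ | x <;> rfl

theorem result :
    (∀ e : ℤ, 3 ≤ |e| → ∃ B : ℕ, ∀ (c : ℚ) (T : Finset (Option ℚ)),
      (∀ P ∈ T, IsPreperiodic (ratMap e 1 0 c) P) → T.card ≤ B) ∧
    (∀ d l : ℕ, 4 ≤ d → 2 ≤ l → 8 ≤ d + l → ∃ B : ℕ, ∀ m n t : ℤ, m ≠ 0 → t ≠ 0 →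
      IsCoprime (m * n) t → ∀ T : Finset (Option ℚ),
        (∀ P ∈ T, IsPreperiodic (ratMap (d : ℤ) ((m : ℚ) / (t : ℚ) ^ l) 0 ((n : ℚ) / (t : ℚ) ^ l))
          P) → T.card ≤ B) ∧
    (∀ (K : Type) [Field K] [NumberField K] (S : Set (HeightOneSpectrum (𝓞 K))) (e : ℤ) (l : ℕ),
      S.Finite → 4 ≤ |e| → 2 ≤ l → 8 ≤ |e| + l →
      (∃ B : ℕ, ∀ b r s : K, b ≠ 0 → BadPrimes S e l (b * (s - r) ^ (e - 1)) →
        ∀ T : Finset (Option K), (∀ P ∈ T, IsPreperiodic (ratMap e b r s) P) → T.card ≤ B) ∧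
      ∃ A : Set K, A.Finite ∧ ∀ b r s : K, b ≠ 0 → s ≠ r →
        BadPrimes S e l (b * (s - r) ^ (e - 1)) → b * (s - r) ^ (e - 1) ∉ A →
          IsDescribed e b r s) ∧
    ∀ (K : Type) [Field K] [NumberField K] (e : ℤ) (l : ℕ), (l : ℤ) ∣ e - 1 →
      ∀ Γ : Subgroup Kˣ, Γ.FG → ∃ S : Set (HeightOneSpectrum (𝓞 K)), S.Finite ∧
        ∀ a ∈ Γ, ∀ t r s : K, BadPrimes S e l ((a : K) * t ^ l * (s - r) ^ (e - 1)) := by
  refine ⟨fun e he => ?_, fun d l hd hl hdl => ?_, fun K _ _ S e l hS he hl hle => ⟨?_, ?_⟩,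
    fun K _ _ e l hle Γ hΓ => ?_⟩
  · obtain ⟨B, hB⟩ := Pool.Agent.W2helper83.BT.overQ_all he
    refine ⟨B, fun c T hT => hB c T (fun P hP => ?_)⟩
    rw [← ratMap_eq]
    exact hT P hP
  · have hd' : (4 : ℤ) ≤ |(d : ℤ)| := by rw [Nat.abs_cast]; exact_mod_cast hd
    have hdl' : (8 : ℤ) ≤ |(d : ℤ)| + (l : ℤ) := by rw [Nat.abs_cast]; exact_mod_cast hdl
    obtain ⟨B, hB⟩ := Pool.Agent.W2helper83.BT.thick_all hd' hl hdl' ℚ ∅ Set.finite_empty
    refine ⟨B, fun m n t hm ht hcop T hT => ?_⟩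
    have hm' : (m : ℚ) ≠ 0 := by exact_mod_cast hm
    have ht' : (t : ℚ) ≠ 0 := by exact_mod_cast ht
    have hcop' : IsCoprime ((m : 𝓞 ℚ) * (n : 𝓞 ℚ)) (t : 𝓞 ℚ) := by
      have := hcop.map (Int.castRingHom (𝓞 ℚ))
      simpa using this
    have ht'' : (t : 𝓞 ℚ) ≠ 0 := by exact_mod_cast ht
    have key := Pool.Agent.W2helper83.BT.cnd_coprime (K := ℚ) (d := d) l (by omega) hcop' ht''
    have cm : ∀ k : ℤ, (((k : ℤ) : 𝓞 ℚ) : ℚ) = (k : ℚ) := fun k => by simp
    rw [cm, cm, cm] at key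
    refine hB ((m : ℚ) / (t : ℚ) ^ l) 0 ((n : ℚ) / (t : ℚ) ^ l)
      (div_ne_zero hm' (pow_ne_zero _ ht')) key T (fun P hP => ?_)
    rw [← ratMap_eq]
    exact hT P hP
  · obtain ⟨B, hB⟩ := Pool.Agent.W2helper83.BT.thick_all he hl hle K S hS
    refine ⟨B, fun b r s hb hC T hT => hB b r s hb hC T (fun P hP => ?_)⟩
    rw [← ratMap_eq]
    exact hT P hP
  · obtain ⟨A, hA, h⟩ := Pool.Agent.W2helper83.BT.desc_thick he hl hle K S hS
    refine ⟨A, hA, fun b r s hb hsr hC hj => ?_⟩
    have := h b r s hb hsr hC hj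
    rw [Pool.Agent.W2helper83.BT.DescA, ← ratMap_eq] at this
    exact this
  · obtain ⟨S, hS, h⟩ := Pool.Agent.W2helper83.BT.cnd_family hle Γ hΓ
    exact ⟨S, hS, fun a ha t r s => h a ha t (s - r)⟩

end Pool.Agent.Results.MP_c076ed_nt.EveryExponent
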