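import Mathlib
import Pool.Agent.W2helper83.BT.Loc7

/-!
# Periodic points of the polynomials in `x ^ d`: a bound which does not depend on the degree

`K` is a number field, `S` a finite set of primes of `K`, `d ≥ 4`, `l ≥ 2`, `d + l ≥ 8`. There is a bound `B`
for the number of periodic points in `K` of all the maps `x ↦ P (x ^ d)`, where `P` is a polynomial over
`K` of any degree such that for every prime `v` outside `S` (`NormalFormAt`): for some `u ∈ K*`
(depending on `v`) the conjugate `P (u ^ d x ^ d) / u` is `c H (x ^ d)`, where `H` is monic with coefficients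
integral at `v`, and if `c` has a pole at `v` then the order of `c` at `v` is divisible by `l` and the
reduction of `H` modulo `v` has no multiple zero in the residue field and does not vanish at zero.
(Some conjugate is `c H (x ^ d)` with `H` monic and integral, for every polynomial in `x ^ d` over `K`.)

Over `ℚ`: the polynomials `s H (x ^ d) / t ^ l` with `H` monic with integer coefficients, `s, t` integers
such that for every prime number `p` dividing `t`: `p` divides neither `s` nor `H (0)`, and `H` is separable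
modulo `p`.
-/

set_option autoImplicit false

namespace Pool.Agent.Results.MP_c076ed_nt.PolynomialsInPowers

open IsDedekindDomain NumberField

/-- the polynomial map `x ↦ P (x ^ d)` -/
noncomputable def powerMap {K : Type} [Field K] (d : ℕ) (P : Polynomial K) (x : K) : K :=
  P.eval (x ^ d)

/-- The reduction of `H` modulo `v` has no zero at zero and no multiple zero in the residue field: if
`H (X)` is divisible by `v` for an integral `X` then `X` and `H' (X)` are units at `v`. -/
def SimpleZeros {K : Type} [Field K] [NumberField K] (v : HeightOneSpectrum (𝓞 K))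
    (H : Polynomial K) : Prop :=
  ∀ X : K, v.valuation K X ≤ 1 → v.valuation K (H.eval X) < 1 →
    v.valuation K X = 1 ∧ v.valuation K (H.derivative.eval X) = 1

/-- The condition at the prime `v`: for some `u` the conjugate `P ((u x) ^ d) / u` is `c H (x ^ d)` with `H`
monic and integral at `v`; and if `c` has a pole at `v` then its order is divisible by `l` and the zeros
of `H` in the residue field are simple and not zero. -/
def NormalFormAt {K : Type} [Field K] [NumberField K] (v : HeightOneSpectrum (𝓞 K)) (d l : ℕ)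
    (P : Polynomial K) : Prop :=
  ∃ (u c : K) (H : Polynomial K), u ≠ 0 ∧ c ≠ 0 ∧ H.Monic ∧
    P.comp (Polynomial.C (u ^ d) * Polynomial.X) = Polynomial.C (u * c) * H ∧
    (∀ i, v.valuation K (H.coeff i) ≤ 1) ∧
    (1 < v.valuation K c → (∃ h : K, v.valuation K c = v.valuation K h ^ l) ∧ SimpleZeros v H)

theorem result :
    (∀ (K : Type) [Field K] [NumberField K] (S : Set (HeightOneSpectrum (𝓞 K))) (d l : ℕ),
      S.Finite → 4 ≤ d → 2 ≤ l → 8 ≤ d + l → ∃ B : ℕ, ∀ P : Polynomial K,
        (∀ v ∉ S, NormalFormAt v d l P) →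
        ∀ T : Finset K, (∀ x ∈ T, x ∈ Function.periodicPts (powerMap d P)) → T.card ≤ B) ∧
    ∀ d l : ℕ, 4 ≤ d → 2 ≤ l → 8 ≤ d + l → ∃ B : ℕ, ∀ (H : Polynomial ℤ) (s t : ℤ),
      H.Monic → s ≠ 0 → t ≠ 0 →
      (∀ p : ℕ, p.Prime → (p : ℤ) ∣ t → ¬ (p : ℤ) ∣ s ∧ ¬ (p : ℤ) ∣ H.coeff 0 ∧
        (H.map (Int.castRingHom (ZMod p))).Separable) →
      ∀ T : Finset ℚ, (∀ x ∈ T, x ∈ Function.periodicPts
        (powerMap d (Polynomial.C ((s : ℚ) / (t : ℚ) ^ l) * H.map (Int.castRingHom ℚ)))) →
        T.card ≤ B := by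
  refine ⟨fun K _ _ S d l hS hd hl hdl => ?_, fun d l hd hl hdl => ?_⟩
  · obtain ⟨B, hB⟩ := Pool.Agent.W2helper83.BT.perp_all hd hl hdl K S hS
    refine ⟨B, fun P hP T hT => hB P (fun v hv => ?_) T fun x hx => ?_⟩
    · obtain ⟨u, c, H, h⟩ := hP v hv
      exact ⟨u, c, H, h⟩
    · obtain ⟨n, hn, h⟩ := hT x hx
      exact ⟨n, hn, h⟩
  · obtain ⟨B, hB⟩ := Pool.Agent.W2helper83.BT.perh_all hd hl hdl ℚ ∅ Set.finite_empty
    refine ⟨B, fun H s t hH hs ht hp T hT => ?_⟩
    have hs' : (s : ℚ) ≠ 0 := by exact_mod_cast hs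
    have ht' : (t : ℚ) ≠ 0 := by exact_mod_cast ht
    refine hB _ _ (div_ne_zero hs' (pow_ne_zero _ ht')) (hH.map _)
      (Pool.Agent.W2helper83.BT.corh' l H s t hH hs ht hp) T fun x hx => ?_
    obtain ⟨n, hn, h⟩ := hT x hx
    have e : powerMap d (Polynomial.C ((s : ℚ) / (t : ℚ) ^ l) * H.map (Int.castRingHom ℚ)) =
        Pool.Agent.W2helper83.BT.fH d ((s : ℚ) / (t : ℚ) ^ l) (H.map (Int.castRingHom ℚ)) := by
      funext x
      rw [powerMap, Pool.Agent.W2helper83.BT.fH, Polynomial.eval_mul, Polynomial.eval_C]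
    rw [e] at h
    exact ⟨n, hn, h⟩

end Pool.Agent.Results.MP_c076ed_nt.PolynomialsInPowers
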